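import Pool.Agent.H.MP_8cec24_co.D

set_option autoImplicit false

namespace Pool.Agent.Results.MP_8cec24_co.NonMult

open Pool.Agent.H.MP_8cec24_co in
/-- There is a finite-type graded finitary upho lattice which is not multiplicable: it carries no
left-cancellative invertible-free monoid structure whose left-divisibility order is its order. -/
theorem result : ∃ (P : Type) (_ : Lattice P) (_ : OrderBot P) (ρ : P → ℕ),
    (∀ a : P, Nonempty (Set.Ici a ≃o P)) ∧ (∀ a : P, Order.height a < ⊤) ∧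
    ρ ⊥ = 0 ∧ (∀ x y : P, x ⋖ y → ρ y = ρ x + 1) ∧ (∀ n : ℕ, {x | ρ x = n}.Finite) ∧
    ¬ ∃ _ : Monoid P, (∀ a b c : P, a * b = a * c → b = c) ∧
      (∀ a b : P, a * b = 1 → a = 1 ∧ b = 1) ∧ ∀ a b : P, a ≤ b ↔ ∃ c, a * c = b := by
  refine ⟨P, lat, inferInstance, rho, P_upho, fun a => ?_, ?_, fun x y h => rho_cov h, rho_fin, ?_⟩
  · refine (Order.height_le_height_apply_of_strictMono rho rho_strict a).trans_lt ?_
    simp
  · have := rho_eq ⊥
    rw [show rk (⊥ : P).1 = 0 from rk_E] at this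
    exact_mod_cast this
  · rintro ⟨M, h1, -, h2⟩
    exact not_mult M h1 h2

end Pool.Agent.Results.MP_8cec24_co.NonMult
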